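import Pool.Agent.L7h98.SY.Stm

/-!
# Project SY, part ORB (helper65): stacking the orbit of a triangular facet
-/

namespace Pool.Agent.L7h65.SY.Orb

open Pool.Agent.L7h98.SY
open scoped InnerProductSpace
open Module Classical

theorem mem_T {A : Finset E3} {y x : E3} : x ∈ T A y ↔ x ∈ A ∧ ⟪y, x⟫_ℝ = 1 := by
  simp [T]

theorem T_map {G : Subgroup (E3 ≃ₗᵢ[ℝ] E3)} {V : Finset E3} (hV : ∀ g ∈ G, ∀ v ∈ V, g v ∈ V)
    {g : E3 ≃ₗᵢ[ℝ] E3} (hg : g ∈ G) (y : E3) : T V (g y) = (T V y).image g := by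
  ext x
  rw [mem_T, Finset.mem_image]
  constructor
  · rintro ⟨h1, h2⟩
    have e : g (g⁻¹ x) = x := g.apply_symm_apply x
    refine ⟨g⁻¹ x, mem_T.2 ⟨hV _ (G.inv_mem hg) x h1, ?_⟩, e⟩
    rw [← h2, ← LinearIsometryEquiv.inner_map_map g y (g⁻¹ x), e]
  · rintro ⟨z, hz, rfl⟩
    obtain ⟨h1, h2⟩ := mem_T.1 hz
    exact ⟨hV g hg z h1, by rw [LinearIsometryEquiv.inner_map_map]; exact h2⟩

theorem T_map_card {G : Subgroup (E3 ≃ₗᵢ[ℝ] E3)} {V : Finset E3}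
    (hV : ∀ g ∈ G, ∀ v ∈ V, g v ∈ V) {g : E3 ≃ₗᵢ[ℝ] E3} (hg : g ∈ G) (y : E3) :
    (T V (g y)).card = (T V y).card := by
  rw [T_map hV hg, Finset.card_image_of_injective _ g.injective]

theorem cen_map {G : Subgroup (E3 ≃ₗᵢ[ℝ] E3)} {V : Finset E3}
    (hV : ∀ g ∈ G, ∀ v ∈ V, g v ∈ V) {g : E3 ≃ₗᵢ[ℝ] E3} (hg : g ∈ G) (y : E3) :
    cen V (g y) = g (cen V y) := by
  unfold cen
  rw [T_map_card hV hg, T_map hV hg, Finset.sum_image (fun x _ x' _ h => g.injective h),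
    map_smul, map_sum]

/-- a finite set which is mapped into itself by `g` is preserved -/
theorem image_eq {V : Finset E3} {g : E3 ≃ₗᵢ[ℝ] E3} (h : ∀ v ∈ V, g v ∈ V) :
    (g : E3 → E3) '' (V : Set E3) = (V : Set E3) := by
  have h1 : V.image g = V := by
    apply Finset.eq_of_subset_of_card_le
    · intro x hx
      obtain ⟨y, hy, rfl⟩ := Finset.mem_image.1 hx
      exact h y hy
    · rw [Finset.card_image_of_injective _ g.injective]
  rw [← Finset.coe_image, h1]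

theorem conv_image {V : Finset E3} {g : E3 ≃ₗᵢ[ℝ] E3} (h : ∀ v ∈ V, g v ∈ V) :
    (g : E3 → E3) '' convexHull ℝ (V : Set E3) = convexHull ℝ (V : Set E3) := by
  have h1 := (g.toLinearEquiv.toLinearMap).image_convexHull (V : Set E3)
  have h2 : (g.toLinearEquiv.toLinearMap : E3 → E3) '' (V : Set E3) = (V : Set E3) := image_eq h
  rw [h2] at h1
  exact h1

/-- orbit and stabilizer -/
theorem orbit_card (G : Subgroup (E3 ≃ₗᵢ[ℝ] E3)) [Finite G] (h : E3) (F : Finset E3)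
    (hF : ∀ x, x ∈ F ↔ ∃ g ∈ G, g h = x) :
    F.card * Nat.card {g : G // (g : E3 ≃ₗᵢ[ℝ] E3) h = h} = Nat.card G := by
  have _ : Fintype G := Fintype.ofFinite G
  have h1 : (Finset.univ : Finset G).card =
      ∑ b ∈ F, ((Finset.univ : Finset G).filter fun g : G => (g : E3 ≃ₗᵢ[ℝ] E3) h = b).card :=
    Finset.card_eq_sum_card_fiberwise (f := fun g : G => (g : E3 ≃ₗᵢ[ℝ] E3) h)
      (fun (g : G) _ => (hF _).2 ⟨(g : E3 ≃ₗᵢ[ℝ] E3), g.2, rfl⟩)
  have h2 : ∀ b ∈ F, ((Finset.univ : Finset G).filter fun g : G => (g : E3 ≃ₗᵢ[ℝ] E3) h = b).card =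
      ((Finset.univ : Finset G).filter fun g : G => (g : E3 ≃ₗᵢ[ℝ] E3) h = h).card := by
    intro b hb
    obtain ⟨g0, hg0, rfl⟩ := (hF _).1 hb
    refine Finset.card_bij' (fun g _ => (⟨g0, hg0⟩ : G)⁻¹ * g) (fun g _ => (⟨g0, hg0⟩ : G) * g)
      ?_ ?_ ?_ ?_
    · intro g hg
      rw [Finset.mem_filter] at hg ⊢
      refine ⟨Finset.mem_univ _, ?_⟩
      have e : g0⁻¹ ((g : E3 ≃ₗᵢ[ℝ] E3) h) = h := by
        rw [hg.2]
        exact g0.symm_apply_apply h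
      exact e
    · intro g hg
      rw [Finset.mem_filter] at hg ⊢
      refine ⟨Finset.mem_univ _, ?_⟩
      have e : g0 ((g : E3 ≃ₗᵢ[ℝ] E3) h) = g0 h := by rw [hg.2]
      exact e
    · intro g hg
      exact mul_inv_cancel_left _ _
    · intro g hg
      exact inv_mul_cancel_left _ _
  rw [Finset.sum_congr rfl h2, Finset.sum_const, smul_eq_mul] at h1
  rw [Nat.card_eq_fintype_card, Nat.card_eq_fintype_card, Fintype.card_subtype]
  exact h1.symm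

theorem s_ORB (hs : S_STK) (hl : S_LIN) : S_ORB := by
  intro G _ V H hGP h hh hT
  obtain ⟨hP, hGV, hGH⟩ := hGP
  obtain ⟨F, hFdef⟩ : ∃ F : Finset E3, F = H.filter fun h' => ∃ g ∈ G, g h = h' := ⟨_, rfl⟩
  have hF : ∀ x, x ∈ F ↔ ∃ g ∈ G, g h = x := by
    intro x
    rw [hFdef, Finset.mem_filter]
    constructor
    · exact fun e => e.2
    · rintro ⟨g, hg, rfl⟩
      exact ⟨hGH g hg h hh, g, hg, rfl⟩
  have hFH : F ⊆ H := by
    rw [hFdef]
    exact Finset.filter_subset _ _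
  have hFG : ∀ g ∈ G, ∀ x ∈ F, g x ∈ F := by
    intro g hg x hx
    obtain ⟨g', hg', rfl⟩ := (hF x).1 hx
    exact (hF _).2 ⟨g * g', G.mul_mem hg hg', rfl⟩
  have hF3 : ∀ x ∈ F, (T V x).card = 3 := by
    intro x hx
    obtain ⟨g, hg, rfl⟩ := (hF x).1 hx
    rw [T_map_card hGV hg, hT]
  have hhF : h ∈ F := (hF h).2 ⟨1, G.one_mem, rfl⟩
  obtain ⟨ε₀, hε₀, hε⟩ := hs V H F hP hFH hF3
  obtain ⟨r, hr, hw⟩ := hε (ε₀ / 2) (by linarith) (by linarith)
  obtain ⟨k, st⟩ := hw (fun y => (1 + ε₀ / 2) • cen V y) (fun y _ => by simpa using hr)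
  obtain ⟨w, hwdef⟩ : ∃ w : E3 → E3, w = fun y => (1 + ε₀ / 2) • cen V y := ⟨_, rfl⟩
  rw [← hwdef] at st
  have hwg : ∀ g ∈ G, ∀ y, w (g y) = g (w y) := by
    intro g hg y
    rw [hwdef]
    simp only
    rw [cen_map hGV hg, map_smul]
  have hV'G : ∀ g ∈ G, ∀ v ∈ newV V F w, g v ∈ newV V F w := by
    intro g hg v hv
    unfold newV at hv ⊢
    rcases Finset.mem_union.1 hv with hv | hv
    · exact Finset.mem_union_left _ (hGV g hg v hv)
    · obtain ⟨y, hy, rfl⟩ := Finset.mem_image.1 hv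
      refine Finset.mem_union_right _ (Finset.mem_image.2 ⟨g y, hFG g hg y hy, hwg g hg y⟩)
  have hH'G : ∀ g ∈ G, ∀ y ∈ newH V H F k, g y ∈ newH V H F k := fun g hg =>
    (hl.2 _ _ st.pair g (conv_image (hV'G g hg))).2
  refine ⟨newV V F w, newH V H F k, w h, k h, F.card, ⟨st.pair, hV'G, hH'G⟩,
    Finset.subset_union_left, Finset.mem_union_right _ (Finset.mem_image.2 ⟨h, hhF, rfl⟩),
    ?_, ?_, ?_, st.cardV, st.cardH, orbit_card G h F hF, ?_, ?_, st.wT h hhF, st.wT3 h hhF⟩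
  · intro v hv hvV
    unfold newV at hv
    rcases Finset.mem_union.1 hv with hv | hv
    · exact absurd hv hvV
    · obtain ⟨y, hy, rfl⟩ := Finset.mem_image.1 hv
      obtain ⟨g, hg, rfl⟩ := (hF y).1 hy
      exact ⟨g, hg, (hwg g hg h).symm⟩
  · intro g hg
    rw [← hwg g hg]
    exact st.wnot _ (hFG g hg h hhF)
  · intro g hg
    rw [← hwg g hg]
    constructor
    · intro e
      exact st.winj _ (hFG g hg h hhF) _ hhF e
    · intro e
      rw [e]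
  · intro h' hh' hne
    have h1 : h' ∉ F := by
      intro h2
      obtain ⟨g, hg, e⟩ := (hF h').1 h2
      exact hne g hg e
    exact ⟨Finset.mem_union_left _ (Finset.mem_sdiff.2 ⟨hh', h1⟩), st.old h' hh' h1⟩
  · intro x hx
    refine ⟨?_, st.knot h hhF x hx, st.kT h hhF x hx⟩
    unfold newH
    exact Finset.mem_union_right _ (Finset.mem_biUnion.2 ⟨h, hhF, Finset.mem_image.2 ⟨x, hx, rfl⟩⟩)

end Pool.Agent.L7h65.SY.Orb
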