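import Pool.Agent.L7h98.SY.Stm

/-!
# Project SY, part SW (helper65): the sweep bound
-/

namespace Pool.Agent.L7h65.SY

open Pool.Agent.L7h98.SY
open scoped InnerProductSpace
open Module Classical

theorem mem_T {A : Finset E3} {y x : E3} : x ∈ T A y ↔ x ∈ A ∧ ⟪y, x⟫_ℝ = 1 := by
  simp [T]

/-- a functional which separates the points of a finite set -/
theorem exists_gen (V : Finset E3) :
    ∃ y : E3, ∀ v ∈ V, ∀ w ∈ V, ⟪y, v⟫_ℝ = ⟪y, w⟫_ℝ → v = w := by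
  obtain ⟨y, hy⟩ := Module.Dual.exists_forall_ne_zero_of_forall_exists
    (K := ℝ) (M := E3) (ι := {p : V × V // p.1 ≠ p.2})
    (fun i => ((innerSL ℝ ((i.1.1 : E3) - (i.1.2 : E3))).toLinearMap : E3 →ₗ[ℝ] ℝ)) (by
      rintro ⟨⟨v, w⟩, h⟩
      refine ⟨(v : E3) - w, ?_⟩
      have h1 : (v : E3) - w ≠ 0 := by
        intro h2
        exact h (Subtype.ext (sub_eq_zero.1 h2))
      have h3 : ⟪(v : E3) - w, (v : E3) - w⟫_ℝ ≠ 0 := inner_self_ne_zero.2 h1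
      exact h3)
  refine ⟨y, fun v hv w hw h => ?_⟩
  by_contra hne
  have h1 := hy ⟨(⟨v, hv⟩, ⟨w, hw⟩), by
    intro h2
    exact hne (congrArg Subtype.val h2)⟩
  apply h1
  have h2 : ⟪v - w, y⟫_ℝ = 0 := by
    rw [real_inner_comm, inner_sub_right, h, sub_self]
  exact h2

/-- four vectors are linearly dependent -/
theorem four (x0 x1 x2 x3 : E3) : ∃ c0 c1 c2 c3 : ℝ,
    c0 • x0 + c1 • x1 + c2 • x2 + c3 • x3 = 0 ∧ ¬ (c0 = 0 ∧ c1 = 0 ∧ c2 = 0 ∧ c3 = 0) := by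
  have h : ¬ LinearIndependent ℝ ![x0, x1, x2, x3] := by
    intro h
    have h1 := h.fintype_card_le_finrank
    rw [Fintype.card_fin, finrank_euclideanSpace, Fintype.card_fin] at h1
    omega
  rw [Fintype.not_linearIndependent_iff] at h
  obtain ⟨g, hg, i, hi⟩ := h
  refine ⟨g 0, g 1, g 2, g 3, ?_, ?_⟩
  · rw [Fin.sum_univ_four] at hg
    exact hg
  · rintro ⟨h0, h1, h2, h3⟩
    apply hi
    fin_cases i
    · exact h0
    · exact h1
    · exact h2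
    · exact h3

/-- two facets with three common vertices in general position are equal -/
theorem eq_of_tight {h h' y y0 v a b : E3} (h1 : ⟪h, v⟫_ℝ = 1) (h2 : ⟪h, a⟫_ℝ = 1)
    (h3 : ⟪h, b⟫_ℝ = 1) (h1' : ⟪h', v⟫_ℝ = 1) (h2' : ⟪h', a⟫_ℝ = 1) (h3' : ⟪h', b⟫_ℝ = 1)
    (hy : ⟪y, v⟫_ℝ = 1) (hya : ⟪y, a⟫_ℝ < 1) (hyb : ⟪y, b⟫_ℝ < 1)
    (hla : ⟪y0, a⟫_ℝ < ⟪y0, v⟫_ℝ) (hlb : ⟪y0, v⟫_ℝ < ⟪y0, b⟫_ℝ) : h = h' := by
  by_contra hne
  obtain ⟨c0, c1, c2, c3, e, hc⟩ := four v a b (h - h')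
  apply hc
  have hz : h - h' ≠ 0 := sub_ne_zero.2 hne
  have key : ∀ z : E3, c0 * ⟪z, v⟫_ℝ + c1 * ⟪z, a⟫_ℝ + c2 * ⟪z, b⟫_ℝ + c3 * ⟪z, h - h'⟫_ℝ = 0 := by
    intro z
    have := congrArg (fun t => ⟪z, t⟫_ℝ) e
    simpa only [inner_add_right, inner_smul_right, inner_zero_right] using this
  have hc3 : c3 = 0 := by
    have k := key (h - h')
    have z1 : ⟪h - h', v⟫_ℝ = 0 := by rw [inner_sub_left, h1, h1', sub_self]
    have z2 : ⟪h - h', a⟫_ℝ = 0 := by rw [inner_sub_left, h2, h2', sub_self]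
    have z3 : ⟪h - h', b⟫_ℝ = 0 := by rw [inner_sub_left, h3, h3', sub_self]
    rw [z1, z2, z3] at k
    have h4 : ⟪h - h', h - h'⟫_ℝ ≠ 0 := inner_self_ne_zero.2 hz
    have h5 : c3 * ⟪h - h', h - h'⟫_ℝ = 0 := by linarith
    exact (mul_eq_zero.1 h5).resolve_right h4
  subst hc3
  have k1 := key h
  have k2 := key y
  have k3 := key y0
  rw [h1, h2, h3] at k1
  rw [hy] at k2
  have hpos : 0 < (1 - ⟪y, a⟫_ℝ) * (⟪y0, b⟫_ℝ - ⟪y0, v⟫_ℝ) +
      (1 - ⟪y, b⟫_ℝ) * (⟪y0, v⟫_ℝ - ⟪y0, a⟫_ℝ) := by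
    have p1 := mul_pos (sub_pos.2 hya) (sub_pos.2 hlb)
    have p2 := mul_pos (sub_pos.2 hyb) (sub_pos.2 hla)
    linarith
  have e1 : c1 * (1 - ⟪y, a⟫_ℝ) + c2 * (1 - ⟪y, b⟫_ℝ) = 0 := by linear_combination k1 - k2
  have e2 : -c1 * (⟪y0, v⟫_ℝ - ⟪y0, a⟫_ℝ) + c2 * (⟪y0, b⟫_ℝ - ⟪y0, v⟫_ℝ) = 0 := by
    linear_combination k3 - ⟪y0, v⟫_ℝ * k1
  have e3 : c1 * ((1 - ⟪y, a⟫_ℝ) * (⟪y0, b⟫_ℝ - ⟪y0, v⟫_ℝ) +
      (1 - ⟪y, b⟫_ℝ) * (⟪y0, v⟫_ℝ - ⟪y0, a⟫_ℝ)) = 0 := by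
    linear_combination (⟪y0, b⟫_ℝ - ⟪y0, v⟫_ℝ) * e1 - (1 - ⟪y, b⟫_ℝ) * e2
  have hc1 : c1 = 0 := (mul_eq_zero.1 e3).resolve_right hpos.ne'
  subst hc1
  have hc2 : c2 = 0 := by
    have : c2 * (1 - ⟪y, b⟫_ℝ) = 0 := by linear_combination e1
    exact (mul_eq_zero.1 this).resolve_right (sub_pos.2 hyb).ne'
  subst hc2
  refine ⟨?_, rfl, rfl, rfl⟩
  linarith

/-- the linear algebra -/
theorem alg {D01 D02 D10 D12 D20 D21 c1 c2 : ℝ} (d01 : 0 < D01) (d02 : 0 < D02) (d10 : 0 < D10)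
    (d12 : 0 < D12) (d20 : 0 < D20) (d21 : 0 < D21) (g0 : c1 * D01 + c2 * D02 = 0)
    (g1 : -(c1 + c2) * D10 + c2 * D12 = 0) (g2 : -(c1 + c2) * D20 + c1 * D21 = 0) :
    c1 = 0 ∧ c2 = 0 := by
  have hpos : 0 < D02 * D21 * D10 + D12 * D20 * D01 := by positivity
  have h2 : c2 * (D02 * D21 * D10 + D12 * D20 * D01) = 0 := by
    linear_combination (-(D10 * D01)) * g2 + D21 * D10 * g0 + D20 * D01 * g1
  have hc2 : c2 = 0 := (mul_eq_zero.1 h2).resolve_right hpos.ne'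
  subst hc2
  have h1 : c1 * D01 = 0 := by linear_combination g0
  exact ⟨(mul_eq_zero.1 h1).resolve_right d01.ne', rfl⟩

/-- a vertex is middle in at most two facets -/
theorem no_three {V H : Finset E3} (p : Pair V H) (y0 v : E3) (hv : v ∈ V) (h : Fin 3 → E3)
    (hinj : ∀ i j, h i = h j → i = j) (hh : ∀ i, h i ∈ H) (hhv : ∀ i, ⟪h i, v⟫_ℝ = 1)
    (a b : Fin 3 → E3) (ha : ∀ i, a i ∈ T V (h i)) (hb : ∀ i, b i ∈ T V (h i))
    (hla : ∀ i, ⟪y0, a i⟫_ℝ < ⟪y0, v⟫_ℝ) (hlb : ∀ i, ⟪y0, v⟫_ℝ < ⟪y0, b i⟫_ℝ) : False := by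
  obtain ⟨y, hy1, hy2⟩ := p.expV v hv
  have key : ∀ i, ∃ s : E3, ⟪y, s⟫_ℝ = 0 ∧ ⟪y0, s⟫_ℝ = ⟪y0, v⟫_ℝ ∧ ⟪h i, s⟫_ℝ = 1 ∧
      ∀ j, j ≠ i → ⟪h j, s⟫_ℝ < 1 := by
    intro i
    obtain ⟨ha1, ha2⟩ := mem_T.1 (ha i)
    obtain ⟨hb1, hb2⟩ := mem_T.1 (hb i)
    have hla' := hla i
    have hlb' := hlb i
    have hav : a i ≠ v := by
      intro h1
      rw [h1] at hla'
      exact lt_irrefl _ hla'
    have hbv : b i ≠ v := by
      intro h1
      rw [h1] at hlb'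
      exact lt_irrefl _ hlb'
    have hya := hy2 _ ha1 hav
    have hyb := hy2 _ hb1 hbv
    obtain ⟨τ, hτ⟩ : ∃ τ : ℝ, τ = (⟪y0, v⟫_ℝ - ⟪y0, a i⟫_ℝ) / (⟪y0, b i⟫_ℝ - ⟪y0, a i⟫_ℝ) := ⟨_, rfl⟩
    have hden : 0 < ⟪y0, b i⟫_ℝ - ⟪y0, a i⟫_ℝ := by linarith
    have hτ0 : 0 < τ := by
      rw [hτ]
      exact div_pos (by linarith) hden
    have hτ1 : τ < 1 := by
      rw [hτ, div_lt_one hden]
      linarith
    have hτe : τ * (⟪y0, b i⟫_ℝ - ⟪y0, a i⟫_ℝ) = ⟪y0, v⟫_ℝ - ⟪y0, a i⟫_ℝ := by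
      rw [hτ]
      exact div_mul_cancel₀ _ hden.ne'
    obtain ⟨r, hr⟩ : ∃ r : E3, r = (1 - τ) • a i + τ • b i := ⟨_, rfl⟩
    have hrz : ∀ z : E3, ⟪z, r⟫_ℝ = (1 - τ) * ⟪z, a i⟫_ℝ + τ * ⟪z, b i⟫_ℝ := by
      intro z
      rw [hr, inner_add_right, inner_smul_right, inner_smul_right]
    have r1 : ⟪y0, r⟫_ℝ = ⟪y0, v⟫_ℝ := by
      rw [hrz]
      linear_combination hτe
    have r2 : ⟪y, r⟫_ℝ < 1 := by
      rw [hrz]
      nlinarith
    have r3 : ⟪h i, r⟫_ℝ = 1 := by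
      rw [hrz, ha2, hb2]
      ring
    have r4 : ∀ j, j ≠ i → ⟪h j, r⟫_ℝ < 1 := by
      intro j hj
      have q1 := p.le _ ha1 _ (hh j)
      have q2 := p.le _ hb1 _ (hh j)
      rcases q1.lt_or_eq with q3 | q3
      · rw [hrz]
        nlinarith
      · rcases q2.lt_or_eq with q4 | q4
        · rw [hrz]
          nlinarith
        · exfalso
          apply hj
          exact hinj _ _ (eq_of_tight (hhv j) q3 q4 (hhv i) ha2 hb2 hy1 hya hyb hla' hlb')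
    obtain ⟨t, ht⟩ : ∃ t : ℝ, t = (1 - ⟪y, r⟫_ℝ)⁻¹ := ⟨_, rfl⟩
    have ht0 : 0 < t := by
      rw [ht]
      exact inv_pos.2 (by linarith)
    have hte : t * (1 - ⟪y, r⟫_ℝ) = 1 := by
      rw [ht]
      exact inv_mul_cancel₀ (by linarith)
    have hsz : ∀ z : E3, ⟪z, v + t • (r - v)⟫_ℝ = ⟪z, v⟫_ℝ + t * (⟪z, r⟫_ℝ - ⟪z, v⟫_ℝ) := by
      intro z
      rw [inner_add_right, inner_smul_right, inner_sub_right]
    refine ⟨v + t • (r - v), ?_, ?_, ?_, fun j hj => ?_⟩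
    · rw [hsz, hy1]
      linear_combination -hte
    · rw [hsz, r1]
      ring
    · rw [hsz, hhv i, r3]
      ring
    · rw [hsz, hhv j]
      have := mul_pos ht0 (sub_pos.2 (r4 j hj))
      linarith
  choose s s1 s2 s3 s4 using key
  obtain ⟨α, β, γ, δ, e, hc⟩ := four y0 y (s 1 - s 0) (s 2 - s 0)
  apply hc
  have hw0 : γ • (s 1 - s 0) + δ • (s 2 - s 0) = 0 := by
    have w1 : ⟪y0, γ • (s 1 - s 0) + δ • (s 2 - s 0)⟫_ℝ = 0 := by
      rw [inner_add_right, inner_smul_right, inner_smul_right, inner_sub_right, inner_sub_right,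
        s2, s2, s2]
      ring
    have w2 : ⟪y, γ • (s 1 - s 0) + δ • (s 2 - s 0)⟫_ℝ = 0 := by
      rw [inner_add_right, inner_smul_right, inner_smul_right, inner_sub_right, inner_sub_right,
        s1, s1, s1]
      ring
    have w3 : γ • (s 1 - s 0) + δ • (s 2 - s 0) = -(α • y0 + β • y) := by
      rw [eq_neg_iff_add_eq_zero, ← e]
      abel
    have w4 : ⟪γ • (s 1 - s 0) + δ • (s 2 - s 0), γ • (s 1 - s 0) + δ • (s 2 - s 0)⟫_ℝ = 0 := by
      calc ⟪γ • (s 1 - s 0) + δ • (s 2 - s 0), γ • (s 1 - s 0) + δ • (s 2 - s 0)⟫_ℝ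
          = ⟪-(α • y0 + β • y), γ • (s 1 - s 0) + δ • (s 2 - s 0)⟫_ℝ := by rw [← w3]
        _ = -(α * ⟪y0, γ • (s 1 - s 0) + δ • (s 2 - s 0)⟫_ℝ +
            β * ⟪y, γ • (s 1 - s 0) + δ • (s 2 - s 0)⟫_ℝ) := by
            rw [inner_neg_left, inner_add_left, real_inner_smul_left, real_inner_smul_left]
        _ = 0 := by rw [w1, w2]; ring
    exact inner_self_eq_zero.1 w4
  have hab : α • y0 + β • y = 0 := by
    have : α • y0 + β • y + (γ • (s 1 - s 0) + δ • (s 2 - s 0)) = 0 := by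
      rw [← e]; abel
    rwa [hw0, add_zero] at this
  have habz : ∀ z : E3, α * ⟪y0, z⟫_ℝ + β * ⟪y, z⟫_ℝ = 0 := by
    intro z
    have := congrArg (fun t => ⟪t, z⟫_ℝ) hab
    simpa only [inner_add_left, real_inner_smul_left, inner_zero_left] using this
  have hβ : β = 0 := by
    have z1 := habz (s 0)
    have z2 := habz v
    rw [s1, s2] at z1
    rw [hy1] at z2
    linarith
  have hα : α = 0 := by
    have z1 := habz (a 0)
    have z2 := habz v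
    rw [hβ] at z1 z2
    have z3 : α * (⟪y0, v⟫_ℝ - ⟪y0, a 0⟫_ℝ) = 0 := by linear_combination z2 - z1
    exact (mul_eq_zero.1 z3).resolve_right (sub_pos.2 (hla 0)).ne'
  have hz : ∀ z : E3, γ * (⟪z, s 1⟫_ℝ - ⟪z, s 0⟫_ℝ) + δ * (⟪z, s 2⟫_ℝ - ⟪z, s 0⟫_ℝ) = 0 := by
    intro z
    have := congrArg (fun t => ⟪z, t⟫_ℝ) hw0
    simpa only [inner_add_right, inner_smul_right, inner_sub_right, inner_zero_right] using this
  have g0 := hz (h 0)
  have g1 := hz (h 1)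
  have g2 := hz (h 2)
  rw [s3 0] at g0
  rw [s3 1] at g1
  rw [s3 2] at g2
  have d01 : 0 < 1 - ⟪h 0, s 1⟫_ℝ := sub_pos.2 (s4 1 0 (by decide))
  have d02 : 0 < 1 - ⟪h 0, s 2⟫_ℝ := sub_pos.2 (s4 2 0 (by decide))
  have d10 : 0 < 1 - ⟪h 1, s 0⟫_ℝ := sub_pos.2 (s4 0 1 (by decide))
  have d12 : 0 < 1 - ⟪h 1, s 2⟫_ℝ := sub_pos.2 (s4 2 1 (by decide))
  have d20 : 0 < 1 - ⟪h 2, s 0⟫_ℝ := sub_pos.2 (s4 0 2 (by decide))
  have d21 : 0 < 1 - ⟪h 2, s 1⟫_ℝ := sub_pos.2 (s4 1 2 (by decide))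
  obtain ⟨hγ, hδ⟩ := alg d01 d02 d10 d12 d20 d21 (c1 := γ) (c2 := δ)
    (by linear_combination -g0) (by linear_combination -g1) (by linear_combination -g2)
  exact ⟨hα, hβ, hγ, hδ⟩

theorem three_le {V H : Finset E3} (hb : S_BAS) (p : Pair V H) {h : E3} (hh : h ∈ H) :
    3 ≤ (T V h).card := (hb V H p).2.1 h hh

/-- the relation: `v` is a middle vertex of the facet `h` -/
def Mid (V : Finset E3) (y0 h v : E3) : Prop :=
  ⟪h, v⟫_ℝ = 1 ∧ (∃ a ∈ T V h, ⟪y0, a⟫_ℝ < ⟪y0, v⟫_ℝ) ∧ ∃ b ∈ T V h, ⟪y0, v⟫_ℝ < ⟪y0, b⟫_ℝ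

theorem s_SW (hbas : S_BAS) : S_SW := by
  intro V H p
  obtain ⟨y0, hy0⟩ := exists_gen V
  -- the sets are not empty
  have hVne : V.Nonempty := by
    rw [Finset.nonempty_iff_ne_empty]
    intro h0
    have h1 := (hbas V H p).2.2.2.1
    rw [h0, Finset.coe_empty, convexHull_empty, interior_empty] at h1
    exact h1
  obtain ⟨v0, hv0⟩ := hVne
  have hHne : H.Nonempty := by
    have h1 : 3 ≤ (T H v0).card := (hbas H V p.symm).2.1 v0 hv0
    have h2 : 0 < (T H v0).card := by omega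
    obtain ⟨x, hx⟩ := Finset.card_pos.1 h2
    exact ⟨x, (mem_T.1 hx).1⟩
  obtain ⟨h0, hh0⟩ := hHne
  have hV3 : 3 ≤ V.card := (three_le hbas p hh0).trans (Finset.card_le_card fun x hx => (mem_T.1 hx).1)
  -- the columns
  have hcol : ∀ v ∈ V, (H.filter fun h => Mid V y0 h v).card ≤ 2 := by
    intro v hv
    by_contra hc
    push Not at hc
    obtain ⟨a1, m1, a2, m2, a3, m3, n1, n2, n3⟩ := Finset.two_lt_card.1 hc
    rw [Finset.mem_filter] at m1 m2 m3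
    obtain ⟨q1, r1, ⟨b1, hb1, lb1⟩, c1, hc1, lc1⟩ := m1
    obtain ⟨q2, r2, ⟨b2, hb2, lb2⟩, c2, hc2, lc2⟩ := m2
    obtain ⟨q3, r3, ⟨b3, hb3, lb3⟩, c3, hc3, lc3⟩ := m3
    refine no_three p y0 v hv ![a1, a2, a3] ?_ ?_ ?_ ![b1, b2, b3] ![c1, c2, c3] ?_ ?_ ?_ ?_
    · intro i j hij
      fin_cases i <;> fin_cases j <;> first
        | rfl
        | exact absurd hij n1
        | exact absurd hij n2
        | exact absurd hij n3
        | exact absurd hij.symm n1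
        | exact absurd hij.symm n2
        | exact absurd hij.symm n3
    · intro i
      fin_cases i
      · exact q1
      · exact q2
      · exact q3
    · intro i
      fin_cases i
      · exact r1
      · exact r2
      · exact r3
    · intro i
      fin_cases i
      · exact hb1
      · exact hb2
      · exact hb3
    · intro i
      fin_cases i
      · exact hc1
      · exact hc2
      · exact hc3
    · intro i
      fin_cases i
      · exact lb1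
      · exact lb2
      · exact lb3
    · intro i
      fin_cases i
      · exact lc1
      · exact lc2
      · exact lc3
  -- the rows
  have hrow : ∀ h ∈ H, (T V h).card ≤ (V.filter fun v => Mid V y0 h v).card + 2 := by
    intro h hh
    have hne : (T V h).Nonempty := Finset.card_pos.1 (by have := three_le hbas p hh; omega)
    obtain ⟨lo, hlo, hlo'⟩ := Finset.exists_min_image (T V h) (fun v => ⟪y0, v⟫_ℝ) hne
    obtain ⟨hi, hhi, hhi'⟩ := Finset.exists_max_image (T V h) (fun v => ⟪y0, v⟫_ℝ) hne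
    have hsub : T V h ⊆ insert lo (insert hi (V.filter fun v => Mid V y0 h v)) := by
      intro x hx
      obtain ⟨hxV, hx1⟩ := mem_T.1 hx
      rw [Finset.mem_insert, Finset.mem_insert, Finset.mem_filter]
      by_cases e1 : x = lo
      · exact Or.inl e1
      · by_cases e2 : x = hi
        · exact Or.inr (Or.inl e2)
        · refine Or.inr (Or.inr ⟨hxV, hx1, ⟨lo, hlo, ?_⟩, ⟨hi, hhi, ?_⟩⟩)
          · refine lt_of_le_of_ne (hlo' x hx) fun e3 => e1 ?_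
            exact (hy0 lo (mem_T.1 hlo).1 x hxV e3).symm
          · refine lt_of_le_of_ne (hhi' x hx) fun e3 => e2 ?_
            exact hy0 x hxV hi (mem_T.1 hhi).1 e3
    refine (Finset.card_le_card hsub).trans ((Finset.card_insert_le _ _).trans ?_)
    exact Nat.succ_le_succ (Finset.card_insert_le _ _)
  -- double counting
  have hdc : ∑ h ∈ H, (V.filter fun v => Mid V y0 h v).card =
      ∑ v ∈ V, (H.filter fun h => Mid V y0 h v).card :=
    Finset.sum_card_bipartiteAbove_eq_sum_card_bipartiteBelow (Mid V y0)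
  -- the extremal vertices
  obtain ⟨lo, hlo, hlo'⟩ := Finset.exists_min_image V (fun v => ⟪y0, v⟫_ℝ) ⟨v0, hv0⟩
  obtain ⟨hi, hhi, hhi'⟩ := Finset.exists_max_image V (fun v => ⟪y0, v⟫_ℝ) ⟨v0, hv0⟩
  have hlohi : lo ≠ hi := by
    intro e
    have h1 : V ⊆ {lo} := by
      intro x hx
      rw [Finset.mem_singleton]
      refine hy0 x hx lo hlo (le_antisymm ?_ (hlo' x hx))
      have := hhi' x hx
      rw [← e] at this
      exact this
    have h2 := Finset.card_le_card h1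
    rw [Finset.card_singleton] at h2
    omega
  have hVlo : (H.filter fun h => Mid V y0 h lo).card = 0 := by
    rw [Finset.card_eq_zero, Finset.filter_eq_empty_iff]
    rintro h _ ⟨_, ⟨a, ha, ha'⟩, _⟩
    have := hlo' a (mem_T.1 ha).1
    linarith
  have hVhi : (H.filter fun h => Mid V y0 h hi).card = 0 := by
    rw [Finset.card_eq_zero, Finset.filter_eq_empty_iff]
    rintro h _ ⟨_, _, ⟨b, hb, hb'⟩⟩
    have := hhi' b (mem_T.1 hb).1
    linarith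
  have hsum : ∑ v ∈ V, (H.filter fun h => Mid V y0 h v).card ≤ 2 * (V.card - 2) := by
    have h1 : ∑ v ∈ (V.erase lo).erase hi, (H.filter fun h => Mid V y0 h v).card =
        ∑ v ∈ V, (H.filter fun h => Mid V y0 h v).card := by
      refine Finset.sum_subset ((Finset.erase_subset _ _).trans (Finset.erase_subset _ _)) ?_
      intro x hx hx'
      rw [Finset.mem_erase, Finset.mem_erase] at hx'
      by_cases e1 : x = lo
      · rw [e1]
        exact hVlo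
      · by_cases e2 : x = hi
        · rw [e2]
          exact hVhi
        · exact absurd ⟨e2, e1, hx⟩ hx'
    have h2 : ((V.erase lo).erase hi).card = V.card - 2 := by
      rw [Finset.card_erase_of_mem (Finset.mem_erase.2 ⟨hlohi.symm, hhi⟩),
        Finset.card_erase_of_mem hlo]
      omega
    rw [← h1, ← h2, mul_comm]
    refine (Finset.sum_le_card_nsmul _ _ 2 fun v hv => ?_).trans (le_of_eq (smul_eq_mul _ _))
    exact hcol v (Finset.mem_of_mem_erase (Finset.mem_of_mem_erase hv))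
  have hfin : ∑ h ∈ H, (T V h).card ≤ ∑ h ∈ H, ((V.filter fun v => Mid V y0 h v).card + 2) :=
    Finset.sum_le_sum hrow
  rw [Finset.sum_add_distrib, hdc, Finset.sum_const, smul_eq_mul] at hfin
  omega

end Pool.Agent.L7h65.SY
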